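import Pool.Agent.TH700.PH.Defs
import Pool.Agent.TH700.TN.Defs
import Mathlib.Algebra.BigOperators.Ring.Finset
import Mathlib.Algebra.Order.BigOperators.Ring.Finset
import Mathlib.Algebra.Order.Ring.Rat
import Mathlib.Data.Fintype.BigOperators
import Mathlib.Data.Fintype.Powerset
import Mathlib.Data.Fintype.Option
import Mathlib.Tactic.Ring
import Mathlib.Tactic.Positivity

/-!
# A tree network which decides the weighted satisfiability of negation-free formulas
-/

set_option autoImplicit false

open Finset

namespace Pool.Agent.TH700.PH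

open Pool.Agent.TH700.TN

variable {m n k : ℕ}

/-- The sets of `k` variables, and one more index. -/
abbrev Wk (n k : ℕ) : Type := Option {S : Finset (Fin n) // S.card = k}

theorem sum_ite2 {W : Type} [Fintype W] [DecidableEq W] (a b : W) (f : W → W → ℚ) :
    ∑ i, ∑ j, (if i = a ∧ j = b then (1 : ℚ) else 0) * f i j = f a b := by
  have h1 : ∀ i j, (if i = a ∧ j = b then (1 : ℚ) else 0) * f i j =
      if i = a then (if j = b then f i j else 0) else 0 := by
    intro i j
    by_cases hi : i = a
    · by_cases hj : j = b <;> simp [hi, hj]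
    · simp [hi]
  simp only [h1]
  simp

/-- The vector of a leaf. -/
def lf (c : Fin n) : Bool → Wk n k → ℚ
  | _, none => 1
  | b, some S => if b = true ∧ c ∈ S.1 then 1 else 0

/-- The tensor of a sum. -/
def addc (i j w : Wk n k) : ℚ :=
  (if w = none then 0 else (if i = w ∧ j = none then 1 else 0)) + (if i = none ∧ j = w then 1 else 0)

/-- The tensor of a product. -/
def mulc (i j w : Wk n k) : ℚ := if i = w ∧ j = w then 1 else 0

/-- The network of a row. -/
def rowN (k : ℕ) (i : Fin m) (c : Fin n) : List (Fin n) → Net ℚ (Fin m × Fin n) (Wk n k)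
  | [] => .leaf (i, c) (lf c)
  | d :: l => .node (rowN k i d l) (.leaf (i, c) (lf c)) addc

theorem rowN_size (i : Fin m) (c : Fin n) (l : List (Fin n)) :
    (rowN k i c l).size = 2 * l.length + 1 := by
  induction l generalizing c with
  | nil => rfl
  | cons d l ih =>
    unfold rowN
    rw [Net.size, ih, Net.size, List.length_cons]
    ring

theorem rowN_reads (i i' : Fin m) (c v : Fin n) (l : List (Fin n)) :
    (rowN k i c l).reads (i', v) = if i = i' then (c :: l).count v else 0 := by
  classical
  induction l generalizing c with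
  | nil =>
    unfold rowN Net.reads
    rw [List.count_singleton]
    by_cases h : i = i' <;> by_cases h' : c = v <;> simp [h, h']
  | cons d l ih =>
    unfold rowN
    rw [Net.reads, ih, Net.reads, List.count_cons (l := d :: l)]
    by_cases h : i = i' <;> by_cases h' : c = v <;> simp [h, h']

theorem rowN_none (i : Fin m) (c : Fin n) (l : List (Fin n)) (x : Fin m × Fin n → Bool) :
    (rowN k i c l).eval x none = 1 := by
  induction l generalizing c with
  | nil => rfl
  | cons d l ih =>
    show ∑ a, ∑ b, addc a b none * ((rowN k i d l).eval x a * lf c (x (i, c)) b) = 1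
    have h1 : ∀ a b : Wk n k, addc a b none =
        if a = none ∧ b = none then (1 : ℚ) else 0 := by
      intro a b
      unfold addc
      simp
    simp only [h1]
    rw [sum_ite2 none none (fun a b => (rowN k i d l).eval x a * lf c (x (i, c)) b), ih, one_mul]
    rfl

theorem rowN_some (i : Fin m) (c : Fin n) (l : List (Fin n)) (x : Fin m × Fin n → Bool)
    (S : {S : Finset (Fin n) // S.card = k}) :
    (rowN k i c l).eval x (some S) =
      ((c :: l).map (fun v => if x (i, v) = true ∧ v ∈ S.1 then (1 : ℚ) else 0)).sum := by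
  induction l generalizing c with
  | nil =>
    show (if x (i, c) = true ∧ c ∈ S.1 then (1 : ℚ) else 0) = _
    simp
  | cons d l ih =>
    show ∑ a, ∑ b, addc a b (some S) * ((rowN k i d l).eval x a * lf c (x (i, c)) b) = _
    have h1 : ∀ a b : Wk n k, addc a b (some S) =
        (if a = some S ∧ b = none then (1 : ℚ) else 0) +
          (if a = none ∧ b = some S then (1 : ℚ) else 0) := by
      intro a b
      unfold addc
      simp
    simp only [h1, add_mul, sum_add_distrib]
    rw [sum_ite2 (some S) none (fun a b => (rowN k i d l).eval x a * lf c (x (i, c)) b),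
      sum_ite2 none (some S) (fun a b => (rowN k i d l).eval x a * lf c (x (i, c)) b), ih,
      rowN_none, List.map_cons (a := c), List.sum_cons]
    show _ * (1 : ℚ) + 1 * (if x (i, c) = true ∧ c ∈ S.1 then (1 : ℚ) else 0) = _
    ring

/-- The network of all rows. -/
def allN (k : ℕ) (c : Fin n) (l : List (Fin n)) (i : Fin m) :
    List (Fin m) → Net ℚ (Fin m × Fin n) (Wk n k)
  | [] => rowN k i c l
  | j :: r => .node (allN k c l j r) (rowN k i c l) mulc

theorem allN_size (c : Fin n) (l : List (Fin n)) (i : Fin m) (r : List (Fin m)) :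
    (allN k c l i r).size + 1 = 2 * (r.length + 1) * (l.length + 1) := by
  induction r generalizing i with
  | nil =>
    unfold allN
    rw [rowN_size, List.length_nil]
    ring
  | cons j r ih =>
    unfold allN
    rw [Net.size, rowN_size, List.length_cons]
    have h := ih j
    have e : 2 * (r.length + 1 + 1) * (l.length + 1) =
        2 * (r.length + 1) * (l.length + 1) + 2 * (l.length + 1) := by ring
    rw [e, ← h]
    ring

theorem allN_reads (c v : Fin n) (l : List (Fin n)) (i i' : Fin m) (r : List (Fin m)) :
    (allN k c l i r).reads (i', v) = (i :: r).count i' * (c :: l).count v := by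
  induction r generalizing i with
  | nil =>
    unfold allN
    rw [rowN_reads, List.count_singleton]
    by_cases h : i = i' <;> simp [h]
  | cons j r ih =>
    unfold allN
    rw [Net.reads, ih, rowN_reads, List.count_cons (l := j :: r), add_mul]
    by_cases h : i = i' <;> simp [h]

theorem allN_eval (c : Fin n) (l : List (Fin n)) (i : Fin m) (r : List (Fin m))
    (x : Fin m × Fin n → Bool) (w : Wk n k) :
    (allN k c l i r).eval x w = ((i :: r).map (fun i => (rowN k i c l).eval x w)).prod := by
  induction r generalizing i with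
  | nil =>
    unfold allN
    simp
  | cons j r ih =>
    show ∑ a, ∑ b, mulc a b w * ((allN k c l j r).eval x a * (rowN k i c l).eval x b) = _
    unfold mulc
    rw [sum_ite2 w w (fun a b => (allN k c l j r).eval x a * (rowN k i c l).eval x b), ih,
      List.map_cons (a := i), List.prod_cons, mul_comm]

/-- The network. -/
theorem upper_sat (hm : 1 ≤ m) (hn : 1 ≤ n) :
    ∃ (T : Net ℚ (Fin m × Fin n) (Wk n k)) (a : Wk n k → ℚ),
      (∀ v, T.reads v = 1) ∧ T.size = 2 * (m * n) - 1 ∧
        ∀ x, T.value a x ≠ 0 ↔ ∃ S : Finset (Fin n), S.card = k ∧ Sat x S := by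
  classical
  have hlist : ∀ q : ℕ, 1 ≤ q → ∃ (c : Fin q) (l : List (Fin q)), (c :: l).Nodup ∧
      (∀ v, v ∈ c :: l) ∧ l.length + 1 = q ∧
      (∀ f : Fin q → ℚ, ((c :: l).map f).sum = ∑ v, f v) ∧
      (∀ f : Fin q → ℚ, ((c :: l).map f).prod = ∏ v, f v) := by
    intro q hq
    obtain ⟨L, hL⟩ : ∃ L, L = (univ : Finset (Fin q)).toList := ⟨_, rfl⟩
    have h1 : L.Nodup := by rw [hL]; exact nodup_toList _
    have h2 : ∀ v, v ∈ L := by intro v; rw [hL]; simp
    have h3 : L.length = q := by rw [hL, length_toList, card_univ, Fintype.card_fin]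
    have h4 : ∀ f : Fin q → ℚ, (L.map f).sum = ∑ v, f v := by
      intro f
      rw [hL]
      exact sum_map_toList _ _
    have h5 : ∀ f : Fin q → ℚ, (L.map f).prod = ∏ v, f v := by
      intro f
      rw [hL]
      exact prod_map_toList _ _
    cases L with
    | nil => exact absurd (h2 ⟨0, hq⟩) (by simp)
    | cons c l => exact ⟨c, l, h1, h2, by rw [List.length_cons] at h3; exact h3, h4, h5⟩
  obtain ⟨c, l, c1, c2, c3, c4, -⟩ := hlist n hn
  obtain ⟨i, r, r1, r2, r3, -, r5⟩ := hlist m hm
  refine ⟨allN k c l i r, fun w => if w = none then 0 else 1, fun v => ?_, ?_, fun x => ?_⟩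
  · obtain ⟨i', v⟩ := v
    rw [allN_reads, List.count_eq_one_of_mem r1 (r2 i'), List.count_eq_one_of_mem c1 (c2 v)]
  · have h := allN_size (k := k) c l i r
    rw [c3, r3, mul_assoc] at h
    omega
  · have h1 : (allN k c l i r).value (fun w => if w = none then 0 else 1) x =
        ∑ S : {S : Finset (Fin n) // S.card = k}, ∏ i : Fin m, ∑ v : Fin n,
          (if x (i, v) = true ∧ v ∈ S.1 then (1 : ℚ) else 0) := by
      unfold Net.value
      rw [Fintype.sum_option]
      simp only [if_true, zero_mul, zero_add, reduceCtorEq, if_false, one_mul]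
      refine sum_congr rfl fun S _ => ?_
      rw [allN_eval, r5]
      refine prod_congr rfl fun i _ => ?_
      rw [rowN_some, c4]
    have h2 : ∀ S : {S : Finset (Fin n) // S.card = k}, 0 ≤ ∏ i : Fin m, ∑ v : Fin n,
        (if x (i, v) = true ∧ v ∈ S.1 then (1 : ℚ) else 0) := fun S =>
      prod_nonneg fun i _ => sum_nonneg fun v _ => by split_ifs <;> norm_num
    rw [h1, Ne, sum_eq_zero_iff_of_nonneg fun S _ => h2 S]
    push Not
    have h3 : ∀ S : {S : Finset (Fin n) // S.card = k}, (∏ i : Fin m, ∑ v : Fin n,
        (if x (i, v) = true ∧ v ∈ S.1 then (1 : ℚ) else 0)) ≠ 0 ↔ Sat x S.1 := by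
      intro S
      rw [prod_ne_zero_iff]
      constructor
      · intro h i
        have h4 := h i (mem_univ _)
        rw [Ne, sum_eq_zero_iff_of_nonneg (fun v _ => by split_ifs <;> norm_num)] at h4
        push Not at h4
        obtain ⟨v, -, hv⟩ := h4
        by_cases h5 : x (i, v) = true ∧ v ∈ S.1
        · exact ⟨v, h5.2, h5.1⟩
        · exact absurd (if_neg h5) hv
      · intro h i _
        obtain ⟨v, hv, hx⟩ := h i
        rw [Ne, sum_eq_zero_iff_of_nonneg (fun v _ => by split_ifs <;> norm_num)]
        push Not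
        refine ⟨v, mem_univ _, ?_⟩
        rw [if_pos ⟨hx, hv⟩]
        exact one_ne_zero
    constructor
    · rintro ⟨S, -, hS⟩
      exact ⟨S.1, S.2, (h3 S).1 hS⟩
    · rintro ⟨S, hSc, hS⟩
      exact ⟨⟨S, hSc⟩, mem_univ _, (h3 ⟨S, hSc⟩).2 hS⟩

end Pool.Agent.TH700.PH
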