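import Mathlib.Data.Finset.Card
import Mathlib.Data.Fintype.Defs

/-!
# Weighted satisfiability of negation-free formulas in conjunctive normal form
-/

set_option autoImplicit false

namespace Pool.Agent.TH700.PH

/-- The assignment which sets exactly the variables of `S` to true satisfies the formula with the
incidence bits `x`: the clause `i` is the disjunction of the variables `v` with `x (i, v)` true. -/
def Sat {m n : ℕ} (x : Fin m × Fin n → Bool) (S : Finset (Fin n)) : Prop :=
  ∀ i, ∃ v ∈ S, x (i, v) = true

end Pool.Agent.TH700.PH
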