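import Pool.Agent.TH700.PT.Density

/-!
# The bound for random networks, with few exceptional patterns for every partition
-/

set_option autoImplicit false

open Finset

namespace Pool.Agent.TH700.PH

open Pool.Agent.TH700.TN Pool.Agent.TH700.GT Pool.Agent.TH700.PT

variable {V : Type} [Fintype V] [DecidableEq V]

theorem rand_density2 (μ : ℕ) (R : Type) [Fintype R] [Nonempty R]
    (K W : R → Type) [∀ ρ, Field (K ρ)] [∀ ρ, Fintype (W ρ)]
    (T : ∀ ρ, Net (K ρ) V (W ρ)) (a : ∀ ρ, W ρ → K ρ) (h1 : ∀ ρ v, (T ρ).reads v ≤ 1)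
    {θ t : ℕ} (hθ : 1 ≤ θ) (ht1 : 1 ≤ t) (hE : 2 * Fintype.card V + θ ≤ θ * t)
    {U : Type} [Fintype U] [Nonempty U] (z : U → V → Bool)
    (hc : ∀ A, Nat.card R ≤ 2 ^ μ * Nat.card {ρ // (T ρ).value (a ρ) (z A) ≠ 0})
    {N : ℕ} (hmix : ∀ (ρ : R) (p : V → Fin t),
      (∀ j, (univ.filter (fun v => p v = j)).card ≤ 2 * θ) →
        ∃ (G : Finset U) (B : Finset (Fin t → U)),
        2 ^ (μ + 1) * (Fintype.card U - G.card) ≤ Fintype.card U ∧
        (∀ b, (∀ j, b j ∈ G) → (T ρ).value (a ρ) (mixp p z b) ≠ 0 → b ∈ B) ∧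
        B.card * N ≤ Fintype.card U ^ t) :
    ∃ ρ, N ≤ 2 ^ t * (2 ^ (μ + 2) * (t * Fintype.card (W ρ) ^ 3)) ^ (t + 1) ∧
      1 ≤ Fintype.card (W ρ) := by
  classical
  have hU : 0 < Fintype.card U := Fintype.card_pos
  -- a network which accepts many patterns
  obtain ⟨ρ, hρ⟩ : ∃ ρ : R, Fintype.card U ≤ 2 ^ μ *
      (univ.filter (fun A : U => (T ρ).value (a ρ) (z A) ≠ 0)).card := by
    by_contra hcon
    push Not at hcon
    have h3 : ∑ ρ : R, 2 ^ μ * (univ.filter (fun A : U => (T ρ).value (a ρ) (z A) ≠ 0)).card <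
        Fintype.card R * Fintype.card U := by
      calc _ < ∑ _ρ : R, Fintype.card U :=
            sum_lt_sum_of_nonempty univ_nonempty (fun ρ _ => hcon ρ)
        _ = _ := by rw [sum_const, card_univ, smul_eq_mul]
    have h4 : Fintype.card R * Fintype.card U ≤ ∑ ρ : R, 2 ^ μ *
        (univ.filter (fun A : U => (T ρ).value (a ρ) (z A) ≠ 0)).card := by
      have h5 : ∑ ρ : R, (univ.filter (fun A : U => (T ρ).value (a ρ) (z A) ≠ 0)).card =
          ∑ A : U, (univ.filter (fun ρ : R => (T ρ).value (a ρ) (z A) ≠ 0)).card := by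
        simp only [card_filter]
        exact sum_comm
      rw [← mul_sum, h5, mul_sum, mul_comm, ← smul_eq_mul, ← card_univ (α := U), ← sum_const]
      refine sum_le_sum (fun A _ => ?_)
      have h6 := hc A
      rw [Nat.card_eq_fintype_card, Nat.card_eq_fintype_card, Fintype.card_subtype] at h6
      exact h6
    omega
  obtain ⟨S, hS⟩ : ∃ S, S = univ.filter (fun A : U => (T ρ).value (a ρ) (z A) ≠ 0) := ⟨_, rfl⟩
  rw [← hS] at hρ
  have hSpos : 0 < S.card := by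
    rcases Nat.eq_zero_or_pos S.card with h0 | h0
    · rw [h0, mul_zero] at hρ
      omega
    · exact h0
  have hW : Nonempty (W ρ) := by
    by_contra hW
    rw [not_nonempty_iff] at hW
    obtain ⟨A, hA⟩ := card_pos.1 hSpos
    rw [hS] at hA
    refine (mem_filter.1 hA).2 ?_
    unfold Net.value
    simp
  obtain ⟨w, hw⟩ : ∃ w, w = Fintype.card (W ρ) := ⟨_, rfl⟩
  have hw1 : 1 ≤ w := by
    rw [hw]
    exact Fintype.card_pos
  refine ⟨ρ, ?_, Fintype.card_pos⟩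
  -- the partition
  obtain ⟨T', g1, g2, -⟩ := exists_ext (T ρ) (h1 ρ)
  have hval : ∀ x, T'.value (a ρ) x = (T ρ).value (a ρ) x := by
    intro x
    unfold Net.value
    rw [g2]
  have hR : ∀ A ∈ cutsv T', Rk w (fun x => (T ρ).value (a ρ) x) A := by
    intro A hA
    have h2 := rk_of_cut (cutsv_cut T' (a ρ) (fun v => (g1 v).le) A hA)
    have h3 : (fun x => T'.value (a ρ) x) = fun x => (T ρ).value (a ρ) x := funext hval
    rwa [h3, ← hw] at h2
  obtain ⟨P, q1, q2, q3⟩ := exists_parts hw1 (univ : Finset V) hθ T' g1 hR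
    (by rwa [card_univ])
  choose p hp using q3
  have hpP : ∀ j, univ.filter (fun v => p v = j) = P j := by
    intro j
    ext v
    rw [mem_filter]
    constructor
    · rintro ⟨-, h⟩
      rw [← h]
      exact hp v
    · intro hv
      refine ⟨mem_univ v, ?_⟩
      by_contra hne
      exact disjoint_left.1 (q2 _ _ hne) (hp v) hv
  obtain ⟨G, B, hG, hB1, hB2⟩ := hmix ρ p (fun j => by
    rw [hpP]
    have := (q1 j).2.2
    rwa [univ_inter] at this)
  obtain ⟨d, hd⟩ : ∃ d, d = w ^ 3 := ⟨_, rfl⟩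
  have hd1 : 1 ≤ d := by
    rw [hd]
    exact Nat.pow_pos hw1
  obtain ⟨M, hM⟩ : ∃ M, M = 2 ^ (μ + 2) * (t * d) := ⟨_, rfl⟩
  have hM1 : 1 ≤ M := by
    rw [hM]
    exact Nat.mul_pos (Nat.pow_pos (by norm_num)) (Nat.mul_pos ht1 hd1)
  -- the good patterns
  have hGU : G.card ≤ Fintype.card U := card_le_univ G
  obtain ⟨L, hL⟩ : ∃ L, L = Fintype.card U - G.card := ⟨_, rfl⟩
  rw [← hL] at hG
  have hL2 : 2 * L ≤ Fintype.card U := by
    refine le_trans (Nat.mul_le_mul_right _ ?_) hG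
    calc 2 = 2 ^ 1 := by norm_num
      _ ≤ _ := Nat.pow_le_pow_right (by norm_num) (by omega)
  have hGpos : 0 < G.card := by omega
  have hS' : Fintype.card U ≤ 2 ^ (μ + 1) * (S ∩ G).card := by
    have e1 : S.card ≤ (S ∩ G).card + L := by
      have e2 : S ⊆ (S ∩ G) ∪ Gᶜ := by
        intro u hu
        rw [mem_union, mem_inter, mem_compl]
        by_cases h : u ∈ G
        · exact Or.inl ⟨hu, h⟩
        · exact Or.inr h
      have e3 := (card_le_card e2).trans (card_union_le _ _)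
      rw [card_compl, ← hL] at e3
      exact e3
    have e4 : 2 ^ μ * S.card ≤ 2 ^ μ * (S ∩ G).card + 2 ^ μ * L := by
      rw [← mul_add]
      exact Nat.mul_le_mul_left _ e1
    rw [pow_succ] at hG ⊢
    have e5 : 2 ^ μ * 2 * L = 2 * (2 ^ μ * L) := by ring
    have e6 : 2 ^ μ * 2 * (S ∩ G).card = 2 * (2 ^ μ * (S ∩ G).card) := by ring
    omega
  obtain ⟨u0, hu0⟩ := card_pos.1 hGpos
  have : Nonempty {u // u ∈ G} := ⟨⟨u0, hu0⟩⟩
  have hcU : Fintype.card {u // u ∈ G} = G.card := Fintype.card_coe G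
  have hdens := density (f := fun x => (T ρ).value (a ρ) x) (d := d) p (fun j => by
    rw [hpP]
    have h2 := (q1 j).2.1
    have h3 : w * (w * w) = d := by rw [hd]; ring
    rwa [h3] at h2) (fun u : {u // u ∈ G} => z u.1) hM1
  have c1 : (univ.filter (fun A : {u // u ∈ G} => (T ρ).value (a ρ) (z A.1) ≠ 0)).card =
      (S ∩ G).card := by
    refine card_bij (fun A _ => A.1) (fun A hA => ?_) (fun A _ A' _ h => Subtype.ext h)
      (fun A hA => ?_)
    · rw [mem_inter, hS]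
      exact ⟨mem_filter.2 ⟨mem_univ _, (mem_filter.1 hA).2⟩, A.2⟩
    · rw [mem_inter, hS] at hA
      exact ⟨⟨A, hA.2⟩, mem_filter.2 ⟨mem_univ _, (mem_filter.1 hA.1).2⟩, rfl⟩
  have c2 : (univ.filter (fun b : Fin t → {u // u ∈ G} =>
      (T ρ).value (a ρ) (mixp p (fun u : {u // u ∈ G} => z u.1) b) ≠ 0)).card ≤ B.card := by
    refine card_le_card_of_injOn (fun b j => (b j).1) (fun b hb => ?_) (fun b _ b' _ h => ?_)
    · exact hB1 _ (fun j => (b j).2) (mem_filter.1 (mem_coe.1 hb)).2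
    · exact funext fun j => Subtype.ext (congrFun h j)
  rw [c1, hcU] at hdens
  have hGr : (0 : ℝ) < G.card := by exact_mod_cast hGpos
  have hUr : (0 : ℝ) < Fintype.card U := by exact_mod_cast hU
  obtain ⟨u, hu'⟩ : ∃ u, u = (Fintype.card U : ℝ) := ⟨_, rfl⟩
  obtain ⟨γ, hγ⟩ : ∃ γ, γ = (G.card : ℝ) := ⟨_, rfl⟩
  rw [← hu'] at hUr
  rw [← hγ] at hGr hdens
  have hγu : γ ≤ u := by rw [hγ, hu']; exact_mod_cast hGU
  have hγ2 : u ≤ 2 * γ := by
    rw [hγ, hu']
    have : Fintype.card U ≤ 2 * G.card := by omega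
    exact_mod_cast this
  have hden2 : 1 / (2 : ℝ) ^ (μ + 1) ≤ ((S ∩ G).card : ℝ) / γ := by
    rw [div_le_div_iff₀ (by positivity) hGr, one_mul]
    have e1 : u ≤ 2 ^ (μ + 1) * ((S ∩ G).card : ℝ) := by
      rw [hu']
      exact_mod_cast hS'
    refine (hγu.trans e1).trans (le_of_eq (mul_comm _ _))
  have hM0 : (0 : ℝ) < M := by exact_mod_cast hM1
  have htd : (t : ℝ) * d / M = 1 / 2 ^ (μ + 2) := by
    have ht0 : (t : ℝ) ≠ 0 := by exact_mod_cast (by omega : t ≠ 0)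
    have hd0 : (d : ℝ) ≠ 0 := by exact_mod_cast (by omega : d ≠ 0)
    rw [hM]
    push_cast
    field_simp
  obtain ⟨β, hβ⟩ : ∃ β : ℝ, β = ((univ.filter (fun b : Fin t → {u // u ∈ G} =>
      (T ρ).value (a ρ) (mixp p (fun u : {u // u ∈ G} => z u.1) b) ≠ 0)).card : ℝ) := ⟨_, rfl⟩
  rw [← hβ, htd] at hdens
  have hβB : β ≤ B.card := by rw [hβ]; exact_mod_cast c2
  have hβ0 : 0 ≤ β := by rw [hβ]; positivity
  have hfin : 1 / (2 : ℝ) ^ (μ + 2) ≤ M ^ t * (β / γ ^ t) := by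
    have e1 := hden2.trans hdens
    have e2 : 1 / (2 : ℝ) ^ (μ + 1) = 1 / 2 ^ (μ + 2) + 1 / 2 ^ (μ + 2) := by
      rw [pow_succ (2 : ℝ) (μ + 1)]
      field_simp
      norm_num
    linarith
  have hβN : β * N ≤ 2 ^ t * γ ^ t := by
    have e1 : (B.card : ℝ) * N ≤ u ^ t := by
      rw [hu']
      exact_mod_cast hB2
    calc β * N ≤ B.card * N := mul_le_mul_of_nonneg_right hβB (Nat.cast_nonneg _)
      _ ≤ u ^ t := e1
      _ ≤ (2 * γ) ^ t := pow_le_pow_left₀ hUr.le hγ2 _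
      _ = _ := mul_pow _ _ _
  have hN : (N : ℝ) * (1 / (2 : ℝ) ^ (μ + 2)) ≤ M ^ t * 2 ^ t := by
    calc (N : ℝ) * (1 / (2 : ℝ) ^ (μ + 2)) ≤ N * (M ^ t * (β / γ ^ t)) :=
          mul_le_mul_of_nonneg_left hfin (Nat.cast_nonneg _)
      _ = M ^ t * ((β * N) / γ ^ t) := by ring
      _ ≤ M ^ t * 2 ^ t := by
          refine mul_le_mul_of_nonneg_left ?_ (by positivity)
          rw [div_le_iff₀ (by positivity)]
          exact hβN
  have hN2 : (N : ℝ) ≤ (M : ℝ) ^ t * 2 ^ t * 2 ^ (μ + 2) := by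
    rw [mul_one_div, div_le_iff₀ (by positivity)] at hN
    exact hN
  have hN3 : N ≤ M ^ t * 2 ^ t * 2 ^ (μ + 2) := by exact_mod_cast hN2
  rw [← hw, ← hd, ← hM]
  have h7 : 2 ^ (μ + 2) ≤ M := by
    rw [hM]
    exact Nat.le_mul_of_pos_right _ (Nat.mul_pos ht1 hd1)
  calc N ≤ M ^ t * 2 ^ t * 2 ^ (μ + 2) := hN3
    _ ≤ M ^ t * 2 ^ t * M := Nat.mul_le_mul_left _ h7
    _ = _ := by rw [pow_succ]; ring

end Pool.Agent.TH700.PH
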