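import Pool.Agent.TH700.PH.Main
import Mathlib.Algebra.Order.Archimedean.Basic

/-!
# The main theorem
-/

set_option autoImplicit false

open Finset

namespace Pool.Agent.TH700.PH

open Pool.Agent.TH700.TN Pool.Agent.TH700.GT Pool.Agent.TH700.PT

theorem main_sat {g : ℕ} (hg : 1 ≤ g) : ∃ D : ℕ, ∀ k n m : ℕ, D ≤ k → (D * k) ^ 4 ≤ n →
    n ^ (D * k) ≤ 2 ^ m →
    ∀ (μ : ℕ) (R : Type) [Fintype R] [Nonempty R] (K W : R → Type) [∀ ρ, Field (K ρ)]
      [∀ ρ, Fintype (W ρ)] (T : ∀ ρ, Net (K ρ) (Fin m × Fin n) (W ρ)) (a : ∀ ρ, W ρ → K ρ),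
      μ ≤ k →
      (∀ ρ v, (T ρ).reads v ≤ 1) →
      (∀ ρ x, (∀ S : Finset (Fin n), S.card ≤ g * k → ¬ Sat x S) → (T ρ).value (a ρ) x = 0) →
      (∀ x, (∃ S : Finset (Fin n), S.card = k ∧ Sat x S) →
        Nat.card R ≤ 2 ^ μ * Nat.card {ρ // (T ρ).value (a ρ) x ≠ 0}) →
      ∃ ρ, n ^ k ≤ Fintype.card (W ρ) ^ D := by
  classical
  obtain ⟨τ, hτ⟩ : ∃ τ, τ = 4 * (32 * g) * 2 ^ 24 := ⟨_, rfl⟩
  obtain ⟨t, ht⟩ : ∃ t, t = 2 * τ + 1 := ⟨_, rfl⟩
  obtain ⟨E, hE⟩ := exists_nat_ge (2 * Real.exp (4 * g))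
  obtain ⟨c, hc⟩ : ∃ c, c = t + (t + 3) * (t + 1) := ⟨_, rfl⟩
  obtain ⟨z1, hz1⟩ : ∃ z1, z1 = 2 ^ (2 * c) := ⟨_, rfl⟩
  obtain ⟨z2, hz2⟩ : ∃ z2, z2 = g * 2 ^ t := ⟨_, rfl⟩
  obtain ⟨z3, hz3⟩ : ∃ z3, z3 = E * (t + 2) := ⟨_, rfl⟩
  refine ⟨t + 6 + z2 + z3 + z1 + 24 * (t + 1) + τ + g,
    fun k n m hk hn hm μ R _ _ K W _ _ T a hμ h1 hno hyes => ?_⟩
  obtain ⟨D, hD⟩ : ∃ D, D = t + 6 + z2 + z3 + z1 + 24 * (t + 1) + τ + g := ⟨_, rfl⟩
  rw [← hD] at hk hn hm ⊢
  have hk1 : 1 ≤ k := by omega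
  have hD1 : 1 ≤ D := by omega
  have hDk : D ≤ n := by
    calc D ≤ D * k := Nat.le_mul_of_pos_right _ hk1
      _ ≤ (D * k) ^ 4 := Nat.le_self_pow (by norm_num) _
      _ ≤ n := hn
  have hDkn : D * k ≤ n := (Nat.le_self_pow (by norm_num) _).trans hn
  have hn1 : 1 ≤ n := by omega
  have hm1 : 1 ≤ m := by
    rcases Nat.eq_zero_or_pos m with h0 | h0
    · exfalso
      rw [h0, pow_zero] at hm
      have h2 : n ≤ n ^ (D * k) := Nat.le_self_pow (Nat.mul_pos hD1 hk1).ne' _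
      omega
    · exact h0
  have hkn : k ≤ n := by
    calc k ≤ D * k := Nat.le_mul_of_pos_left _ hD1
      _ ≤ n := hDkn
  have ht1 : 1 ≤ t := by omega
  have : Nonempty (Fin n) := ⟨⟨0, hn1⟩⟩
  have : Nonempty (Fin k) := ⟨⟨0, hk1⟩⟩
  -- the parts
  have hτ1 : 1 ≤ τ := by omega
  obtain ⟨θ, hθ⟩ : ∃ θ, θ = m * n / τ + 1 := ⟨_, rfl⟩
  have hθ1 : m * n < τ * θ := by
    rw [hθ]
    exact Nat.lt_mul_div_succ _ hτ1
  have hmn : n ≤ m * n := Nat.le_mul_of_pos_left _ hm1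
  have hθ2 : τ * θ ≤ 2 * (m * n) := by
    have h2 : τ * (m * n / τ) ≤ m * n := Nat.mul_div_le _ _
    have h3 : τ * θ = τ * (m * n / τ) + τ := by rw [hθ]; ring
    omega
  have hEt : 2 * Fintype.card (Fin m × Fin n) + θ ≤ θ * t := by
    rw [Fintype.card_prod, Fintype.card_fin, Fintype.card_fin, ht]
    have : θ * (2 * τ + 1) = 2 * (τ * θ) + θ := by ring
    omega
  obtain ⟨ρ, hρ, hw1⟩ := rand_density2 μ R K W T a h1 (θ := θ) (t := t)
    (by rw [hθ]; exact Nat.succ_le_succ (Nat.zero_le _)) ht1 hEt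
    (U := Ph m n k) frm (fun u => hyes _ (frm_sat hkn u)) (N := n ^ (k / 2)) (fun ρ p hp => by
      obtain ⟨B, hB1, hB2⟩ := few_bad (E := E) hg hk1 ht1 hE
        (le_trans (Nat.mul_le_mul_right _ (by omega)) hDkn)
        (le_trans (Nat.pow_le_pow_left (Nat.mul_le_mul_right _ (by rw [← hz2]; omega)) _) hn)
        (le_trans (Nat.pow_le_pow_right hn1 (by
          calc E * ((t + 2) * k) = E * (t + 2) * k := by ring
            _ ≤ D * k := Nat.mul_le_mul_right _ (by rw [← hz3]; omega))) hm) p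
      refine ⟨univ.filter (fun u : Ph m n k => Light (32 * g) p u.1), B, ?_, fun b hb hval => ?_,
        hB2⟩
      · -- few exceptional patterns
        have hh : ∀ j, (heavy (32 * g) p j).card * 2 ^ 24 ≤ n := by
          intro j
          have h2 := card_heavy (s := 32 * g) p j (hp j)
          refine Nat.le_of_mul_le_mul_left (c := 4 * (32 * g) * m) ?_
            (Nat.mul_pos (by omega) hm1)
          calc 4 * (32 * g) * m * ((heavy (32 * g) p j).card * 2 ^ 24) =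
              (heavy (32 * g) p j).card * m * (4 * (32 * g) * 2 ^ 24) := by ring
            _ = (heavy (32 * g) p j).card * m * τ := by rw [← hτ]
            _ ≤ 32 * g * (2 * θ) * τ := Nat.mul_le_mul_right _ h2
            _ = 32 * g * 2 * (τ * θ) := by ring
            _ ≤ 32 * g * 2 * (2 * (m * n)) := Nat.mul_le_mul_left _ hθ2
            _ = _ := by ring
        obtain ⟨X, hX⟩ : ∃ X, X = (univ.filter (fun κ : Fin k → Fin n =>
          ¬ Light (32 * g) p κ)).card := ⟨_, rfl⟩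
        have h2 := card_not_light (k := k) p hh
        rw [← hX] at h2
        have h3 : Fintype.card (Ph m n k) -
            (univ.filter (fun u : Ph m n k => Light (32 * g) p u.1)).card ≤ X * k ^ m := by
          rw [← card_compl]
          have h4 : (univ.filter (fun u : Ph m n k => Light (32 * g) p u.1))ᶜ ⊆
              (univ.filter (fun κ : Fin k → Fin n => ¬ Light (32 * g) p κ)) ×ˢ
                (univ : Finset (Fin m → Fin k)) := by
            intro u hu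
            rw [mem_compl, mem_filter] at hu
            rw [mem_product]
            exact ⟨mem_filter.2 ⟨mem_univ _, fun h => hu ⟨mem_univ _, h⟩⟩, mem_univ _⟩
          refine (card_le_card h4).trans (le_of_eq ?_)
          rw [card_product, card_univ, Fintype.card_fun, Fintype.card_fin, Fintype.card_fin, hX]
        have h5 : 2 ^ (μ + 1) * X ≤ n ^ k := by
          have h6 : 2 ^ (μ + 1) * (t * 2 ^ k) ≤ 2 ^ (3 * k) := by
            have h7 : t ≤ 2 ^ t := Nat.lt_two_pow_self.le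
            calc 2 ^ (μ + 1) * (t * 2 ^ k) ≤ 2 ^ (μ + 1) * (2 ^ t * 2 ^ k) :=
                  Nat.mul_le_mul_left _ (Nat.mul_le_mul_right _ h7)
              _ = 2 ^ (μ + 1 + (t + k)) := by rw [← pow_add, ← pow_add]
              _ ≤ _ := Nat.pow_le_pow_right (by norm_num) (by omega)
          refine Nat.le_of_mul_le_mul_left (c := t * 2 ^ k) ?_
            (Nat.mul_pos ht1 (by positivity))
          calc t * 2 ^ k * (2 ^ (μ + 1) * X) = X * (2 ^ (μ + 1) * (t * 2 ^ k)) := by ring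
            _ ≤ X * 2 ^ (3 * k) := Nat.mul_le_mul_left _ h6
            _ ≤ t * (2 ^ k * n ^ k) := h2
            _ = _ := by ring
        calc 2 ^ (μ + 1) * (Fintype.card (Ph m n k) -
            (univ.filter (fun u : Ph m n k => Light (32 * g) p u.1)).card) ≤
            2 ^ (μ + 1) * (X * k ^ m) := Nat.mul_le_mul_left _ h3
          _ = 2 ^ (μ + 1) * X * k ^ m := by ring
          _ ≤ n ^ k * k ^ m := Nat.mul_le_mul_right _ h5
          _ = _ := card_ph.symm
      · refine hB1 b (fun j => (mem_filter.1 (hb j)).2) ?_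
        by_contra hcon
        push Not at hcon
        exact hval (hno ρ _ hcon))
  refine ⟨ρ, ?_⟩
  obtain ⟨w, hw⟩ : ∃ w, w = Fintype.card (W ρ) := ⟨_, rfl⟩
  rw [← hw] at hρ hw1 ⊢
  -- the constants
  have e1 : n ^ (k / 2) ≤ 2 ^ (c * k) * w ^ (3 * (t + 1)) := by
    have h2 : 2 ^ (μ + 2) * (t * w ^ 3) ≤ 2 ^ (k + 2 + t) * w ^ 3 := by
      have h7 : t ≤ 2 ^ t := Nat.lt_two_pow_self.le
      calc 2 ^ (μ + 2) * (t * w ^ 3) ≤ 2 ^ (k + 2) * (2 ^ t * w ^ 3) :=
            Nat.mul_le_mul (Nat.pow_le_pow_right (by norm_num) (by omega))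
              (Nat.mul_le_mul_right _ h7)
        _ = _ := by rw [pow_add 2 (k + 2) t]; ring
    calc n ^ (k / 2) ≤ 2 ^ t * (2 ^ (k + 2 + t) * w ^ 3) ^ (t + 1) :=
          hρ.trans (Nat.mul_le_mul_left _ (Nat.pow_le_pow_left h2 _))
      _ = 2 ^ (t + (k + 2 + t) * (t + 1)) * w ^ (3 * (t + 1)) := by
          rw [mul_pow, ← pow_mul, ← pow_mul, pow_add 2 t]
          ring
      _ ≤ _ := by
          refine Nat.mul_le_mul_right _ (Nat.pow_le_pow_right (by norm_num) ?_)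
          rw [hc, show (t + (t + 3) * (t + 1)) * k = t * k + (t + 3) * (t + 1) * k by ring]
          refine Nat.add_le_add (Nat.le_mul_of_pos_right _ hk1) ?_
          have h3 : k + 2 + t ≤ (t + 3) * k := by
            have h4 : (t + 3) * k = t * k + 3 * k := by ring
            have h5 : t ≤ t * k := Nat.le_mul_of_pos_right _ hk1
            omega
          calc (k + 2 + t) * (t + 1) ≤ (t + 3) * k * (t + 1) := Nat.mul_le_mul_right _ h3
            _ = _ := by ring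
  have e2 : (2 ^ (c * k)) ^ 8 ≤ n ^ k := by
    calc (2 ^ (c * k)) ^ 8 = ((2 ^ (2 * c)) ^ 4) ^ k := by
          rw [← pow_mul, ← pow_mul, ← pow_mul]
          congr 1
          ring
      _ ≤ ((D * k) ^ 4) ^ k := by
          refine Nat.pow_le_pow_left (Nat.pow_le_pow_left ?_ _) _
          calc 2 ^ (2 * c) ≤ D := by rw [← hz1]; omega
            _ ≤ D * k := Nat.le_mul_of_pos_right _ hk1
      _ ≤ _ := Nat.pow_le_pow_left hn _
  have e3 : n ^ (3 * k) ≤ (n ^ (k / 2)) ^ 8 := by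
    rw [← pow_mul]
    exact Nat.pow_le_pow_right hn1 (by omega)
  have e4 : n ^ (3 * k) ≤ n ^ k * w ^ (24 * (t + 1)) := by
    calc n ^ (3 * k) ≤ (2 ^ (c * k) * w ^ (3 * (t + 1))) ^ 8 :=
          e3.trans (Nat.pow_le_pow_left e1 _)
      _ = (2 ^ (c * k)) ^ 8 * w ^ (24 * (t + 1)) := by
          rw [mul_pow, ← pow_mul w]
          congr 2
          ring
      _ ≤ _ := Nat.mul_le_mul_right _ e2
  have e5 : n ^ (2 * k) ≤ w ^ (24 * (t + 1)) := by
    refine Nat.le_of_mul_le_mul_left (c := n ^ k) ?_ (Nat.pow_pos hn1)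
    rw [← pow_add]
    refine le_trans (le_of_eq ?_) e4
    congr 1
    ring
  calc n ^ k ≤ n ^ (2 * k) := Nat.pow_le_pow_right hn1 (by omega)
    _ ≤ w ^ (24 * (t + 1)) := e5
    _ ≤ w ^ D := Nat.pow_le_pow_right hw1 (by omega)

end Pool.Agent.TH700.PH
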