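import Pool.Agent.TH700.PH.Defs
import Mathlib.Algebra.BigOperators.Ring.Finset
import Mathlib.Algebra.Order.BigOperators.Group.Finset
import Mathlib.Data.Fintype.BigOperators
import Mathlib.Data.Fintype.Powerset
import Mathlib.Algebra.Group.Action.Defs
import Mathlib.Algebra.Module.Defs
import Mathlib.Algebra.BigOperators.Field
import Mathlib.Tactic.Ring
import Mathlib.Tactic.Linarith
import Mathlib.Tactic.NormNum

/-!
# Patterns which meet few heavy columns of the parts
-/

set_option autoImplicit false

open Finset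

namespace Pool.Agent.TH700.PH

variable {m n k t : ℕ}

/-- The number of rows in which the column `v` belongs to the part `j`. -/
def col (p : Fin m × Fin n → Fin t) (j : Fin t) (v : Fin n) : ℕ :=
  (univ.filter (fun i => p (i, v) = j)).card

/-- The heavy columns. -/
def heavy (s : ℕ) (p : Fin m × Fin n → Fin t) (j : Fin t) : Finset (Fin n) :=
  univ.filter (fun v => m < s * col p j v)

/-- A pattern is light if at most an eighth of its variables are heavy columns, for each part. -/
def Light (s : ℕ) (p : Fin m × Fin n → Fin t) (κ : Fin k → Fin n) : Prop :=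
  ∀ j, 8 * (univ.filter (fun a => κ a ∈ heavy s p j)).card ≤ k

theorem sum_col (p : Fin m × Fin n → Fin t) (j : Fin t) :
    ∑ v, col p j v = (univ.filter (fun e => p e = j)).card := by
  unfold col
  simp only [card_filter]
  rw [Fintype.sum_prod_type, sum_comm]

theorem card_heavy {s θ : ℕ} (p : Fin m × Fin n → Fin t) (j : Fin t)
    (hb : (univ.filter (fun e => p e = j)).card ≤ 2 * θ) :
    (heavy s p j).card * m ≤ s * (2 * θ) := by
  calc (heavy s p j).card * m = ∑ _v ∈ heavy s p j, m := by rw [sum_const, smul_eq_mul]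
    _ ≤ ∑ v ∈ heavy s p j, s * col p j v :=
        sum_le_sum fun v hv => ((mem_filter.1 hv).2).le
    _ ≤ ∑ v, s * col p j v := sum_le_sum_of_subset (subset_univ _)
    _ = s * (univ.filter (fun e => p e = j)).card := by rw [← mul_sum, sum_col]
    _ ≤ _ := Nat.mul_le_mul_left _ hb

theorem prod_ite_pow {ι : Type} [Fintype ι] [DecidableEq ι] (S : Finset ι) (r : ℕ) :
    ∏ i, (if i ∈ S then r else 1) = r ^ S.card := by
  rw [prod_ite, prod_const_one, mul_one, prod_const]
  congr 2
  ext i
  simp

/-- The functions which map `A` into a small set. -/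
theorem card_into {c : ℕ} (Z : Finset (Fin n)) (hZ : Z.card * c ≤ n) (A : Finset (Fin k)) :
    (univ.filter (fun κ : Fin k → Fin n => ∀ a ∈ A, κ a ∈ Z)).card * c ^ A.card ≤ n ^ k := by
  have h1 : univ.filter (fun κ : Fin k → Fin n => ∀ a ∈ A, κ a ∈ Z) ⊆
      Fintype.piFinset (fun a => if a ∈ A then Z else univ) := by
    intro κ hκ
    rw [Fintype.mem_piFinset]
    intro a
    by_cases ha : a ∈ A
    · rw [if_pos ha]
      exact (mem_filter.1 hκ).2 a ha
    · rw [if_neg ha]
      exact mem_univ _
  refine (Nat.mul_le_mul_right _ (card_le_card h1)).trans ?_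
  rw [Fintype.card_piFinset, ← prod_ite_pow A c, ← prod_mul_distrib]
  calc _ ≤ ∏ _a : Fin k, n := by
        refine prod_le_prod' fun a _ => ?_
        by_cases ha : a ∈ A
        · rw [if_pos ha, if_pos ha]
          exact hZ
        · rw [if_neg ha, if_neg ha, mul_one, card_univ, Fintype.card_fin]
    _ = _ := by rw [prod_const, card_univ, Fintype.card_fin]

open Classical in
/-- Few patterns are not light. -/
theorem card_not_light {s : ℕ} (p : Fin m × Fin n → Fin t)
    (hh : ∀ j, (heavy s p j).card * 2 ^ 24 ≤ n) :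
    (univ.filter (fun κ : Fin k → Fin n => ¬ Light s p κ)).card * 2 ^ (3 * k) ≤
      t * (2 ^ k * n ^ k) := by
  have h1 : univ.filter (fun κ : Fin k → Fin n => ¬ Light s p κ) ⊆
      univ.biUnion (fun j : Fin t => ((univ : Finset (Fin k)).powerset.filter
        (fun A => k < 8 * A.card)).biUnion (fun A =>
          univ.filter (fun κ : Fin k → Fin n => ∀ a ∈ A, κ a ∈ heavy s p j))) := by
    intro κ hκ
    have h2 := (mem_filter.1 hκ).2
    unfold Light at h2
    push Not at h2
    obtain ⟨j, hj⟩ := h2
    rw [mem_biUnion]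
    refine ⟨j, mem_univ _, ?_⟩
    rw [mem_biUnion]
    refine ⟨univ.filter (fun a => κ a ∈ heavy s p j),
      mem_filter.2 ⟨mem_powerset.2 (subset_univ _), hj⟩, mem_filter.2 ⟨mem_univ _, ?_⟩⟩
    intro a ha
    exact (mem_filter.1 ha).2
  have h3 : ∀ j : Fin t, ∀ A ∈ (univ : Finset (Fin k)).powerset.filter (fun A => k < 8 * A.card),
      (univ.filter (fun κ : Fin k → Fin n => ∀ a ∈ A, κ a ∈ heavy s p j)).card * 2 ^ (3 * k) ≤
        n ^ k := by
    intro j A hA
    refine le_trans (Nat.mul_le_mul_left _ ?_) (card_into _ (hh j) A)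
    rw [← pow_mul]
    refine Nat.pow_le_pow_right (by norm_num) ?_
    have := (mem_filter.1 hA).2
    omega
  calc (univ.filter (fun κ : Fin k → Fin n => ¬ Light s p κ)).card * 2 ^ (3 * k) ≤
      (∑ j : Fin t, ∑ A ∈ (univ : Finset (Fin k)).powerset.filter (fun A => k < 8 * A.card),
        (univ.filter (fun κ : Fin k → Fin n => ∀ a ∈ A, κ a ∈ heavy s p j)).card) *
          2 ^ (3 * k) := by
        refine Nat.mul_le_mul_right _ ((card_le_card h1).trans (card_biUnion_le.trans ?_))
        exact sum_le_sum fun j _ => card_biUnion_le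
    _ = ∑ j : Fin t, ∑ A ∈ (univ : Finset (Fin k)).powerset.filter (fun A => k < 8 * A.card),
        (univ.filter (fun κ : Fin k → Fin n => ∀ a ∈ A, κ a ∈ heavy s p j)).card *
          2 ^ (3 * k) := by
        rw [sum_mul]
        exact sum_congr rfl fun j _ => sum_mul _ _ _
    _ ≤ ∑ _j : Fin t, ∑ _A ∈ (univ : Finset (Fin k)).powerset.filter (fun A => k < 8 * A.card),
        n ^ k := sum_le_sum fun j _ => sum_le_sum fun A hA => h3 j A hA
    _ ≤ ∑ _j : Fin t, 2 ^ k * n ^ k := by
        refine sum_le_sum fun j _ => ?_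
        rw [sum_const, smul_eq_mul]
        refine Nat.mul_le_mul_right _ ((card_le_card (filter_subset _ _)).trans ?_)
        rw [card_powerset, card_univ, Fintype.card_fin]
    _ = _ := by rw [sum_const, card_univ, Fintype.card_fin, smul_eq_mul]

/-! ### the rows -/

open Classical in
/-- The usable positions of a row. -/
noncomputable def use (p : Fin m × Fin n → Fin t) (κ : Fin t → Fin k → Fin n)
    (T : Finset (Fin t × Fin k)) (i : Fin m) (j : Fin t) : Finset (Fin k) :=
  univ.filter (fun a => (j, a) ∈ T ∧ p (i, κ j a) = j)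

open Classical in
theorem sum_use (p : Fin m × Fin n → Fin t) (κ : Fin t → Fin k → Fin n)
    (T : Finset (Fin t × Fin k)) (i : Fin m) : ∑ j, (use p κ T i j).card ≤ T.card := by
  rw [card_eq_sum_card_fiberwise (f := fun s : Fin t × Fin k => s.1) (s := T) (t := univ)
    (fun _ _ => mem_univ _)]
  refine sum_le_sum fun j _ => ?_
  refine card_le_card_of_injOn (fun a => (j, a)) (fun a ha => ?_)
    (fun a _ a' _ h => (Prod.mk.inj h).2)
  rw [mem_coe, mem_filter]
  have h1 := (mem_filter.1 (mem_coe.1 ha)).2
  exact ⟨h1.1, rfl⟩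

open Classical in
/-- In few rows some part has more than half of its positions usable. -/
theorem card_bad_rows {g : ℕ} (hg : 1 ≤ g) (hk : 1 ≤ k) (p : Fin m × Fin n → Fin t)
    (κ : Fin t → Fin k → Fin n) (hκ : ∀ j, Light (32 * g) p (κ j)) (T : Finset (Fin t × Fin k))
    (hT : T.card ≤ 2 * g * k) :
    2 * (univ.filter (fun i => ∃ j, k < 2 * (use p κ T i j).card)).card ≤ m := by
  obtain ⟨J, hJ⟩ : ∃ J : Finset (Fin t), J = univ.filter (fun j =>
    k < 2 * (T.filter (fun s => s.1 = j)).card) := ⟨_, rfl⟩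
  have hJc : J.card ≤ 4 * g := by
    refine Nat.le_of_mul_le_mul_left (c := k) ?_ hk
    calc k * J.card = ∑ _j ∈ J, k := by rw [sum_const, smul_eq_mul, mul_comm]
      _ ≤ ∑ j ∈ J, 2 * (T.filter (fun s => s.1 = j)).card := by
          refine sum_le_sum fun j hj => ?_
          rw [hJ] at hj
          exact ((mem_filter.1 hj).2).le
      _ ≤ ∑ j, 2 * (T.filter (fun s => s.1 = j)).card := sum_le_sum_of_subset (subset_univ _)
      _ = 2 * T.card := by
          rw [← mul_sum, card_eq_sum_card_fiberwise (f := fun s : Fin t × Fin k => s.1) (s := T)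
            (t := univ) (fun _ _ => mem_univ _)]
      _ ≤ 2 * (2 * g * k) := Nat.mul_le_mul_left _ hT
      _ = _ := by ring
  have h1 : ∀ j, 12 * g * (univ.filter (fun i => k < 2 * (use p κ T i j).card)).card ≤ m := by
    intro j
    obtain ⟨I, hI⟩ : ∃ I, I = univ.filter (fun i => k < 2 * (use p κ T i j).card) := ⟨_, rfl⟩
    rw [← hI]
    obtain ⟨F, hF⟩ : ∃ F, F = univ.filter (fun a => κ j a ∈ heavy (32 * g) p j) := ⟨_, rfl⟩
    have hF8 : 8 * F.card ≤ k := by rw [hF]; exact hκ j j
    have h2 : ∀ i ∈ I, 3 * k ≤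
        8 * ((Fᶜ : Finset (Fin k)).filter (fun a => p (i, κ j a) = j)).card := by
      intro i hi
      rw [hI] at hi
      have h3 := (mem_filter.1 hi).2
      have h4 : (use p κ T i j).card ≤ F.card +
          ((Fᶜ : Finset (Fin k)).filter (fun a => p (i, κ j a) = j)).card := by
        refine le_trans (card_le_card fun a ha => ?_) (card_union_le _ _)
        rw [mem_union, mem_filter, mem_compl]
        by_cases haF : a ∈ F
        · exact Or.inl haF
        · exact Or.inr ⟨haF, ((mem_filter.1 ha).2).2⟩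
      omega
    have h3 : I.card * (3 * k) * (32 * g) ≤ 8 * (k * m) := by
      calc I.card * (3 * k) * (32 * g) = (∑ _i ∈ I, 3 * k) * (32 * g) := by
            rw [sum_const, smul_eq_mul]
        _ ≤ (∑ i ∈ I, 8 * ((Fᶜ : Finset (Fin k)).filter
              (fun a => p (i, κ j a) = j)).card) * (32 * g) :=
            Nat.mul_le_mul_right _ (sum_le_sum h2)
        _ ≤ (∑ i, 8 * ((Fᶜ : Finset (Fin k)).filter
              (fun a => p (i, κ j a) = j)).card) * (32 * g) :=
            Nat.mul_le_mul_right _ (sum_le_sum_of_subset (subset_univ _))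
        _ = 8 * ∑ a ∈ Fᶜ, (32 * g) * col p j (κ j a) := by
            unfold col
            simp only [card_filter, ← mul_sum]
            rw [sum_comm]
            ring
        _ ≤ 8 * ∑ _a ∈ Fᶜ, m := by
            refine Nat.mul_le_mul_left _ (sum_le_sum fun a ha => ?_)
            rw [mem_compl, hF] at ha
            by_contra hcon
            rw [not_le] at hcon
            exact ha (mem_filter.2 ⟨mem_univ _, mem_filter.2 ⟨mem_univ _, hcon⟩⟩)
        _ ≤ _ := by
            rw [sum_const, smul_eq_mul]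
            refine Nat.mul_le_mul_left _ (Nat.mul_le_mul_right _ ?_)
            have := card_le_univ (Fᶜ)
            rwa [Fintype.card_fin] at this
    refine Nat.le_of_mul_le_mul_left (c := 8 * k) ?_ (by omega)
    calc 8 * k * (12 * g * I.card) = I.card * (3 * k) * (32 * g) := by ring
      _ ≤ 8 * (k * m) := h3
      _ = _ := by ring
  have h2 : univ.filter (fun i => ∃ j, k < 2 * (use p κ T i j).card) ⊆
      J.biUnion (fun j => univ.filter (fun i => k < 2 * (use p κ T i j).card)) := by
    intro i hi
    obtain ⟨j, hj⟩ := (mem_filter.1 hi).2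
    rw [mem_biUnion]
    refine ⟨j, ?_, mem_filter.2 ⟨mem_univ _, hj⟩⟩
    rw [hJ, mem_filter]
    refine ⟨mem_univ _, lt_of_lt_of_le hj (Nat.mul_le_mul_left _ ?_)⟩
    refine card_le_card_of_injOn (fun a => (j, a)) (fun a ha => ?_)
      (fun a _ a' _ h => (Prod.mk.inj h).2)
    rw [mem_coe, mem_filter]
    have h1 := (mem_filter.1 (mem_coe.1 ha)).2
    exact ⟨h1.1, rfl⟩
  have h3 : 12 * g * (univ.filter (fun i => ∃ j, k < 2 * (use p κ T i j).card)).card ≤
      4 * g * m := by
    calc _ ≤ 12 * g * ∑ j ∈ J, (univ.filter (fun i => k < 2 * (use p κ T i j).card)).card :=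
          Nat.mul_le_mul_left _ ((card_le_card h2).trans card_biUnion_le)
      _ = ∑ j ∈ J, 12 * g * (univ.filter (fun i => k < 2 * (use p κ T i j).card)).card := by
          rw [mul_sum]
      _ ≤ ∑ _j ∈ J, m := sum_le_sum fun j _ => h1 j
      _ = J.card * m := by rw [sum_const, smul_eq_mul]
      _ ≤ _ := Nat.mul_le_mul_right _ hJc
  have h4 : 4 * g * (3 * (univ.filter (fun i => ∃ j, k < 2 * (use p κ T i j).card)).card) ≤
      4 * g * m := by
    calc _ = 12 * g * (univ.filter (fun i => ∃ j, k < 2 * (use p κ T i j).card)).card := by ring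
      _ ≤ _ := h3
  have h5 := Nat.le_of_mul_le_mul_left h4 (by omega)
  omega

end Pool.Agent.TH700.PH
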