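import Pool.Agent.TH700.PH.Rows
import Pool.Agent.TH700.PH.Density
import Mathlib.Analysis.Complex.ExponentialBounds
import Mathlib.Data.Nat.Choose.Bounds

/-!
# Tensor networks for the weighted satisfiability of negation-free formulas
-/

set_option autoImplicit false

open Finset

namespace Pool.Agent.TH700.PH

open Pool.Agent.TH700.TN Pool.Agent.TH700.GT Pool.Agent.TH700.PT

variable {m n k t : ℕ}

theorem frm_sat (hk : k ≤ n) (u : Ph m n k) : ∃ S : Finset (Fin n), S.card = k ∧ Sat (frm u) S := by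
  classical
  have h1 : (univ.image u.1).card ≤ k := by
    have := card_image_le (s := (univ : Finset (Fin k))) (f := u.1)
    rwa [card_univ, Fintype.card_fin] at this
  obtain ⟨S, hS, hSc⟩ := exists_superset_card_eq h1 (by rwa [Fintype.card_fin])
  refine ⟨S, hSc, fun i => ⟨u.1 (u.2 i), hS (mem_image.2 ⟨_, mem_univ _, rfl⟩), ?_⟩⟩
  unfold frm
  simp

theorem sat_mono {x : Fin m × Fin n → Bool} {S S' : Finset (Fin n)} (h : S ⊆ S')
    (hS : Sat x S) : Sat x S' := fun i => by
  obtain ⟨v, hv, hx⟩ := hS i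
  exact ⟨v, h hv, hx⟩

/-- The bad tuples. -/
theorem few_bad {g E : ℕ} (hg : 1 ≤ g) (hk : 1 ≤ k) (ht1 : 1 ≤ t)
    (hE : 2 * Real.exp (4 * g) ≤ E) (hgn : g * k ≤ n)
    (hn : (g * 2 ^ t * k) ^ 4 ≤ n) (hm : n ^ (E * ((t + 2) * k)) ≤ 2 ^ m)
    (p : Fin m × Fin n → Fin t) :
    ∃ B : Finset (Fin t → Ph m n k),
      (∀ b, (∀ j, Light (32 * g) p (b j).1) →
        (∃ S : Finset (Fin n), S.card ≤ g * k ∧ Sat (mixp p frm b) S) → b ∈ B) ∧
      B.card * n ^ (k / 2) ≤ Fintype.card (Ph m n k) ^ t := by
  classical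
  have h2t : 1 ≤ 2 ^ t := Nat.one_le_two_pow
  have hgk : 1 ≤ g * k := Nat.mul_pos hg hk
  have hn2 : 2 ≤ n := by
    have h1 : 2 ≤ 2 ^ t := by
      calc 2 = 2 ^ 1 := by norm_num
        _ ≤ 2 ^ t := Nat.pow_le_pow_right (by norm_num) ht1
    have h2 : 2 ≤ g * 2 ^ t * k := by
      calc 2 ≤ 2 ^ t := h1
        _ ≤ 2 ^ t * (g * k) := Nat.le_mul_of_pos_right _ hgk
        _ = _ := by ring
    calc 2 ≤ g * 2 ^ t * k := h2
      _ ≤ (g * 2 ^ t * k) ^ 4 := Nat.le_self_pow (by norm_num) _
      _ ≤ n := hn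
  have hn1 : 1 ≤ n := by omega
  obtain ⟨C, hC⟩ : ∃ C, C = Fintype.card (Ph m n k) ^ t := ⟨_, rfl⟩
  rw [← hC]
  obtain ⟨B1, hB1⟩ : ∃ B1 : Finset (Fin t → Ph m n k), B1 =
    (powersetCard (g * k) (univ : Finset (Fin n))).biUnion (fun S =>
      (powersetCard (2 * g * k) (univ : Finset (Fin t × Fin k))).biUnion (fun T =>
        univ.filter (fun b : Fin t → Ph m n k => ∀ s ∈ T, (b s.1).1 s.2 ∈ S))) := ⟨_, rfl⟩
  obtain ⟨B2, hB2⟩ : ∃ B2 : Finset (Fin t → Ph m n k), B2 =
    ((univ : Finset (Fin t × Fin k)).powerset.filter (fun T => T.card ≤ 2 * g * k)).biUnion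
      (fun T => univ.filter (fun b : Fin t → Ph m n k => (∀ j, Light (32 * g) p (b j).1) ∧
        ∀ i, ∃ j, (b j).2 i ∈ use p (fun j => (b j).1) T i j)) := ⟨_, rfl⟩
  refine ⟨B1 ∪ B2, fun b hb hS => ?_, ?_⟩
  · obtain ⟨S₀, hS₀c, hS₀⟩ := hS
    obtain ⟨S, hSS, hSc⟩ := exists_superset_card_eq hS₀c (by rwa [Fintype.card_fin])
    have hS := sat_mono hSS hS₀
    obtain ⟨T, hT⟩ : ∃ T : Finset (Fin t × Fin k), T =
      univ.filter (fun s => (b s.1).1 s.2 ∈ S) := ⟨_, rfl⟩
    rw [mem_union]
    rcases Nat.lt_or_ge (2 * g * k) T.card with h1 | h1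
    · left
      obtain ⟨T', hT', hTc⟩ := exists_subset_card_eq h1.le
      rw [hB1, mem_biUnion]
      refine ⟨S, mem_powersetCard.2 ⟨subset_univ _, hSc⟩, ?_⟩
      rw [mem_biUnion]
      refine ⟨T', mem_powersetCard.2 ⟨subset_univ _, hTc⟩, mem_filter.2 ⟨mem_univ _, ?_⟩⟩
      intro s hs
      have h2 := hT' hs
      rw [hT] at h2
      exact (mem_filter.1 h2).2
    · right
      rw [hB2, mem_biUnion]
      refine ⟨T, mem_filter.2 ⟨mem_powerset.2 (subset_univ _), h1⟩,
        mem_filter.2 ⟨mem_univ _, hb, fun i => ?_⟩⟩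
      obtain ⟨v, hv, hx⟩ := hS i
      have h2 : (b (p (i, v))).1 ((b (p (i, v))).2 i) = v := by
        have h3 : frm (b (p (i, v))) (i, v) = true := hx
        unfold frm at h3
        exact of_decide_eq_true h3
      refine ⟨p (i, v), ?_⟩
      unfold use
      refine mem_filter.2 ⟨mem_univ _, ?_, ?_⟩
      · rw [hT]
        refine mem_filter.2 ⟨mem_univ _, ?_⟩
        show (b (p (i, v))).1 ((b (p (i, v))).2 i) ∈ S
        rw [h2]
        exact hv
      · show p (i, (b (p (i, v))).1 ((b (p (i, v))).2 i)) = p (i, v)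
        rw [h2]
  · -- the first kind
    have e1 : B1.card * n ^ (g * k) ≤ 2 ^ (t * k) * (g * k) ^ (2 * (g * k)) * C := by
      have h1 : B1.card * n ^ (2 * g * k) ≤
          n ^ (g * k) * (2 ^ (t * k) * ((g * k) ^ (2 * g * k) * C)) := by
        calc B1.card * n ^ (2 * g * k) ≤
            (∑ S ∈ powersetCard (g * k) (univ : Finset (Fin n)),
              ∑ T ∈ powersetCard (2 * g * k) (univ : Finset (Fin t × Fin k)),
              (univ.filter (fun b : Fin t → Ph m n k => ∀ s ∈ T, (b s.1).1 s.2 ∈ S)).card) *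
                n ^ (2 * g * k) := by
              refine Nat.mul_le_mul_right _ ?_
              rw [hB1]
              exact card_biUnion_le.trans (sum_le_sum fun S _ => card_biUnion_le)
          _ = ∑ S ∈ powersetCard (g * k) (univ : Finset (Fin n)),
              ∑ T ∈ powersetCard (2 * g * k) (univ : Finset (Fin t × Fin k)),
              (univ.filter (fun b : Fin t → Ph m n k => ∀ s ∈ T, (b s.1).1 s.2 ∈ S)).card *
                n ^ (2 * g * k) := by
              rw [sum_mul]
              exact sum_congr rfl fun S _ => sum_mul _ _ _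
          _ ≤ ∑ _S ∈ powersetCard (g * k) (univ : Finset (Fin n)),
              ∑ _T ∈ powersetCard (2 * g * k) (univ : Finset (Fin t × Fin k)),
              (g * k) ^ (2 * g * k) * C := by
              refine sum_le_sum fun S hS => sum_le_sum fun T hT => ?_
              have h2 := card_one (m := m) S T
              rw [(mem_powersetCard.1 hT).2, (mem_powersetCard.1 hS).2, ← hC] at h2
              exact h2
          _ = (powersetCard (g * k) (univ : Finset (Fin n))).card *
              ((powersetCard (2 * g * k) (univ : Finset (Fin t × Fin k))).card *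
                ((g * k) ^ (2 * g * k) * C)) := by
              rw [sum_const, sum_const, smul_eq_mul, smul_eq_mul]
          _ ≤ _ := by
              refine Nat.mul_le_mul ?_ (Nat.mul_le_mul_right _ ?_)
              · rw [card_powersetCard, card_univ, Fintype.card_fin]
                exact Nat.choose_le_pow _ _
              · rw [card_powersetCard, card_univ, Fintype.card_prod, Fintype.card_fin,
                  Fintype.card_fin]
                exact Nat.choose_le_two_pow _ _
      refine Nat.le_of_mul_le_mul_left (c := n ^ (g * k)) ?_ (Nat.pow_pos hn1)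
      calc n ^ (g * k) * (B1.card * n ^ (g * k)) = B1.card * n ^ (2 * g * k) := by
            rw [show 2 * g * k = g * k + g * k by ring, pow_add]
            ring
        _ ≤ _ := h1
        _ = _ := by
            rw [show 2 * g * k = 2 * (g * k) by ring]
            ring
    have e2 : 2 * n ^ (k / 2) * (2 ^ (t * k) * (g * k) ^ (2 * (g * k))) ≤ n ^ (g * k) := by
      refine (Nat.pow_le_pow_iff_left (n := 2) (by norm_num)).1 ?_
      have h1 : (n ^ (k / 2)) ^ 2 ≤ n ^ (g * k) := by
        rw [← pow_mul]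
        refine Nat.pow_le_pow_right hn1 ?_
        have : k ≤ g * k := Nat.le_mul_of_pos_left _ hg
        omega
      have h2 : (2 * (2 ^ (t * k) * (g * k) ^ (2 * (g * k)))) ^ 2 ≤ n ^ (g * k) := by
        have htk : 1 ≤ t * k := Nat.mul_pos ht1 hk
        have h3 : 2 ^ (2 * (t * k) + 2) ≤ (2 ^ t) ^ (4 * (g * k)) := by
          rw [← pow_mul]
          refine Nat.pow_le_pow_right (by norm_num) ?_
          have h4 : t * k ≤ t * (g * k) := Nat.mul_le_mul_left _ (Nat.le_mul_of_pos_left _ hg)
          have h5 : t * (4 * (g * k)) = 4 * (t * (g * k)) := by ring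
          omega
        calc (2 * (2 ^ (t * k) * (g * k) ^ (2 * (g * k)))) ^ 2 =
            2 ^ (2 * (t * k) + 2) * (g * k) ^ (4 * (g * k)) := by
              rw [mul_pow, mul_pow, ← pow_mul, ← pow_mul, pow_add 2 (2 * (t * k)) 2]
              rw [show t * k * 2 = 2 * (t * k) by ring,
                show 2 * (g * k) * 2 = 4 * (g * k) by ring]
              ring
          _ ≤ (2 ^ t) ^ (4 * (g * k)) * (g * k) ^ (4 * (g * k)) := Nat.mul_le_mul_right _ h3
          _ = ((g * 2 ^ t * k) ^ 4) ^ (g * k) := by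
              rw [← mul_pow, ← pow_mul]
              congr 1
              ring
          _ ≤ _ := Nat.pow_le_pow_left hn _
      calc (2 * n ^ (k / 2) * (2 ^ (t * k) * (g * k) ^ (2 * (g * k)))) ^ 2 =
          (n ^ (k / 2)) ^ 2 * (2 * (2 ^ (t * k) * (g * k) ^ (2 * (g * k)))) ^ 2 := by ring
        _ ≤ n ^ (g * k) * n ^ (g * k) := Nat.mul_le_mul h1 h2
        _ = _ := by ring
    have f1 : 2 * (B1.card * n ^ (k / 2)) ≤ C := by
      refine Nat.le_of_mul_le_mul_left (c := 2 ^ (t * k) * (g * k) ^ (2 * (g * k))) ?_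
        (Nat.mul_pos (by positivity) (Nat.pow_pos hgk))
      calc 2 ^ (t * k) * (g * k) ^ (2 * (g * k)) * (2 * (B1.card * n ^ (k / 2))) =
          B1.card * (2 * n ^ (k / 2) * (2 ^ (t * k) * (g * k) ^ (2 * (g * k)))) := by ring
        _ ≤ B1.card * n ^ (g * k) := Nat.mul_le_mul_left _ e2
        _ ≤ _ := e1
    -- the second kind
    obtain ⟨ε, hε⟩ : ∃ ε : ℝ, ε = Real.exp (-(4 * g)) / 2 := ⟨_, rfl⟩
    have hε0 : 0 < ε := by rw [hε]; positivity
    have e3 : (B2.card : ℝ) ≤ 2 ^ (t * k) * (C * Real.exp (-(ε * m))) := by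
      calc (B2.card : ℝ) ≤ ∑ T ∈ (univ : Finset (Fin t × Fin k)).powerset.filter
            (fun T => T.card ≤ 2 * g * k), ((univ.filter (fun b : Fin t → Ph m n k =>
              (∀ j, Light (32 * g) p (b j).1) ∧
              ∀ i, ∃ j, (b j).2 i ∈ use p (fun j => (b j).1) T i j)).card : ℝ) := by
            rw [hB2]
            exact_mod_cast card_biUnion_le
        _ ≤ ∑ _T ∈ (univ : Finset (Fin t × Fin k)).powerset.filter
            (fun T => T.card ≤ 2 * g * k), C * Real.exp (-(ε * m)) := by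
            refine sum_le_sum fun T hT => ?_
            have h1 := card_two (m := m) hg hk p T (mem_filter.1 hT).2
            rw [hC, hε]
            push_cast
            exact h1
        _ = (((univ : Finset (Fin t × Fin k)).powerset.filter
            (fun T => T.card ≤ 2 * g * k)).card : ℝ) * (C * Real.exp (-(ε * m))) := by
            rw [sum_const, nsmul_eq_mul]
        _ ≤ _ := by
            refine mul_le_mul_of_nonneg_right ?_ (by positivity)
            have h1 : ((univ : Finset (Fin t × Fin k)).powerset.filter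
              (fun T => T.card ≤ 2 * g * k)).card ≤ 2 ^ (t * k) := by
              refine (card_le_card (filter_subset _ _)).trans (le_of_eq ?_)
              rw [card_powerset, card_univ, Fintype.card_prod, Fintype.card_fin,
                Fintype.card_fin]
            exact_mod_cast h1
    have hEε : 1 ≤ E * ε := by
      rw [hε]
      have h1 : Real.exp (4 * g) * Real.exp (-(4 * g)) = 1 := by
        rw [← Real.exp_add, add_neg_cancel, Real.exp_zero]
      have h2 := Real.exp_pos (-(4 * (g : ℝ)))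
      nlinarith
    have hE1 : E ≠ 0 := by
      rintro rfl
      norm_num at hEε
    have e4 : (n : ℝ) ^ ((t + 2) * k) ≤ Real.exp (ε * m) := by
      refine (pow_le_pow_iff_left₀ (by positivity) (Real.exp_pos _).le hE1).1 ?_
      rw [← pow_mul, mul_comm ((t + 2) * k) E, ← Real.exp_nat_mul]
      calc (n : ℝ) ^ (E * ((t + 2) * k)) ≤ 2 ^ m := by exact_mod_cast hm
        _ ≤ (Real.exp 1) ^ m := by
            refine pow_le_pow_left₀ (by norm_num) ?_ _
            have := Real.add_one_le_exp (1 : ℝ)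
            linarith
        _ = Real.exp m := by rw [← Real.exp_nat_mul, mul_one]
        _ ≤ _ := by
            refine Real.exp_le_exp.2 ?_
            have : (m : ℝ) * 1 ≤ m * (E * ε) := mul_le_mul_of_nonneg_left hEε (Nat.cast_nonneg _)
            linarith
    have e5 : 2 * n ^ (k / 2) * 2 ^ (t * k) ≤ n ^ ((t + 2) * k) := by
      calc 2 * n ^ (k / 2) * 2 ^ (t * k) ≤ n ^ k * n ^ k * n ^ (t * k) := by
            refine Nat.mul_le_mul (Nat.mul_le_mul ?_ ?_) (Nat.pow_le_pow_left hn2 _)
            · exact hn2.trans (Nat.le_self_pow (by omega) _)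
            · exact Nat.pow_le_pow_right hn1 (Nat.div_le_self _ _)
        _ = _ := by
            rw [← pow_add, ← pow_add]
            congr 1
            ring
    have f2 : 2 * (B2.card * n ^ (k / 2)) ≤ C := by
      have h1 : (2 : ℝ) * (B2.card * (n : ℝ) ^ (k / 2)) ≤ C := by
        have e6 : (2 : ℝ) * (n : ℝ) ^ (k / 2) * 2 ^ (t * k) ≤ (n : ℝ) ^ ((t + 2) * k) := by
          exact_mod_cast e5
        calc (2 : ℝ) * (B2.card * (n : ℝ) ^ (k / 2)) = 2 * (n : ℝ) ^ (k / 2) * B2.card := by ring
          _ ≤ 2 * (n : ℝ) ^ (k / 2) * (2 ^ (t * k) * (C * Real.exp (-(ε * m)))) :=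
              mul_le_mul_of_nonneg_left e3 (by positivity)
          _ = 2 * (n : ℝ) ^ (k / 2) * 2 ^ (t * k) * (C * Real.exp (-(ε * m))) := by ring
          _ ≤ Real.exp (ε * m) * (C * Real.exp (-(ε * m))) :=
              mul_le_mul_of_nonneg_right (e6.trans e4) (by positivity)
          _ = C * (Real.exp (ε * m) * Real.exp (-(ε * m))) := by ring
          _ = C := by rw [← Real.exp_add, add_neg_cancel, Real.exp_zero, mul_one]
      exact_mod_cast h1
    have h1 := card_union_le B1 B2
    have h2 : (B1 ∪ B2).card * n ^ (k / 2) ≤ (B1.card + B2.card) * n ^ (k / 2) :=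
      Nat.mul_le_mul_right _ h1
    rw [add_mul] at h2
    omega

end Pool.Agent.TH700.PH
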