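import Pool.Agent.TH700.PH.Light
import Mathlib.Analysis.SpecialFunctions.Exp
import Mathlib.Tactic.Positivity
import Mathlib.Tactic.FieldSimp

/-!
# Counting the tuples of patterns whose mixture has a small satisfying assignment
-/

set_option autoImplicit false

open Finset

namespace Pool.Agent.TH700.PH

variable {m n k t : ℕ}

open Classical in
/-- The choices in the row `i` which use a position of `T`. -/
noncomputable def hits (p : Fin m × Fin n → Fin t) (κ : Fin t → Fin k → Fin n)
    (T : Finset (Fin t × Fin k)) (i : Fin m) : Finset (Fin t → Fin k) :=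
  univ.filter (fun φ => ∃ j, φ j ∈ use p κ T i j)

open Classical in
theorem card_hits_all (p : Fin m × Fin n → Fin t) (κ : Fin t → Fin k → Fin n)
    (T : Finset (Fin t × Fin k)) (i : Fin m) : (hits p κ T i).card ≤ k ^ t := by
  have := card_le_univ (hits p κ T i)
  rwa [Fintype.card_fun, Fintype.card_fin, Fintype.card_fin] at this

open Classical in
theorem card_hits_good {g : ℕ} (hk : 1 ≤ k) (p : Fin m × Fin n → Fin t)
    (κ : Fin t → Fin k → Fin n) (T : Finset (Fin t × Fin k)) (hT : T.card ≤ 2 * g * k)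
    (i : Fin m) (h : ∀ j, 2 * (use p κ T i j).card ≤ k) :
    ((hits p κ T i).card : ℝ) ≤ (k : ℝ) ^ t * Real.exp (-Real.exp (-(4 * g))) := by
  have hk0 : (0 : ℝ) < k := by exact_mod_cast hk
  -- the complement
  have h1 : (hits p κ T i)ᶜ = Fintype.piFinset (fun j => (use p κ T i j)ᶜ) := by
    ext φ
    unfold hits
    rw [mem_compl, mem_filter, Fintype.mem_piFinset]
    constructor
    · intro hφ j
      rw [mem_compl]
      exact fun hj => hφ ⟨mem_univ _, j, hj⟩
    · rintro hφ ⟨-, j, hj⟩
      exact (mem_compl.1 (hφ j)) hj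
  have h2 : ((hits p κ T i)ᶜ.card : ℝ) = ∏ j, ((k : ℝ) - (use p κ T i j).card) := by
    rw [h1, Fintype.card_piFinset]
    push_cast
    refine prod_congr rfl fun j _ => ?_
    rw [card_compl, Fintype.card_fin, Nat.cast_sub]
    have := h j
    omega
  have h3 : (k : ℝ) ^ t * Real.exp (-(4 * g)) ≤ ((hits p κ T i)ᶜ.card : ℝ) := by
    rw [h2]
    have h4 : ∀ j : Fin t, (k : ℝ) * Real.exp (-(2 * ((use p κ T i j).card / k))) ≤
        (k : ℝ) - (use p κ T i j).card := by
      intro j
      obtain ⟨x, hx⟩ : ∃ x : ℝ, x = (use p κ T i j).card / k := ⟨_, rfl⟩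
      have hx0 : 0 ≤ x := by rw [hx]; positivity
      have hx1 : x ≤ 1 / 2 := by
        rw [hx, div_le_iff₀ hk0]
        have : (2 * (use p κ T i j).card : ℝ) ≤ k := by exact_mod_cast h j
        linarith
      have h5 : Real.exp (-(2 * x)) ≤ 1 - x := by
        have h6 := Real.add_one_le_exp (2 * x)
        have h7 : 1 ≤ (1 - x) * (2 * x + 1) := by nlinarith
        have h8 : 0 < 1 - x := by linarith
        rw [Real.exp_neg, inv_le_comm₀ (Real.exp_pos _) h8]
        refine le_trans ?_ h6
        rw [inv_le_iff_one_le_mul₀' h8]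
        exact h7
      rw [← hx]
      calc (k : ℝ) * Real.exp (-(2 * x)) ≤ k * (1 - x) := mul_le_mul_of_nonneg_left h5 hk0.le
        _ = _ := by
            rw [hx]
            field_simp
    refine le_trans ?_ (prod_le_prod (fun j _ => by positivity) fun j _ => h4 j)
    rw [prod_mul_distrib, prod_const, card_univ, Fintype.card_fin, ← Real.exp_sum]
    refine mul_le_mul_of_nonneg_left (Real.exp_le_exp.2 ?_) (by positivity)
    rw [sum_neg_distrib, ← mul_sum, ← sum_div, neg_le_neg_iff]
    have h5 : (∑ j, ((use p κ T i j).card : ℝ)) ≤ 2 * g * k := by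
      exact_mod_cast (sum_use p κ T i).trans hT
    have h6 : (∑ j, ((use p κ T i j).card : ℝ)) / k ≤ 2 * g := by
      rw [div_le_iff₀ hk0]
      exact h5
    linarith
  have h4 : ((hits p κ T i).card : ℝ) = (k : ℝ) ^ t - ((hits p κ T i)ᶜ.card : ℝ) := by
    rw [card_compl, Fintype.card_fun, Fintype.card_fin, Fintype.card_fin,
      Nat.cast_sub (card_hits_all p κ T i)]
    push_cast
    ring
  have h5 := Real.add_one_le_exp (-Real.exp (-(4 * (g : ℝ))))
  have hkt : (0 : ℝ) < (k : ℝ) ^ t := by positivity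
  rw [h4]
  nlinarith

open Classical in
/-- Few choices of the second components. -/
theorem prod_hits {g : ℕ} (hg : 1 ≤ g) (hk : 1 ≤ k) (p : Fin m × Fin n → Fin t)
    (κ : Fin t → Fin k → Fin n) (hκ : ∀ j, Light (32 * g) p (κ j)) (T : Finset (Fin t × Fin k))
    (hT : T.card ≤ 2 * g * k) :
    ((∏ i, (hits p κ T i).card : ℕ) : ℝ) ≤
      ((k : ℝ) ^ t) ^ m * Real.exp (-(Real.exp (-(4 * g)) / 2 * m)) := by
  obtain ⟨I, hI⟩ : ∃ I, I = univ.filter (fun i => ∃ j, k < 2 * (use p κ T i j).card) := ⟨_, rfl⟩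
  have hIc := card_bad_rows hg hk p κ hκ T hT
  rw [← hI] at hIc
  obtain ⟨q, hq⟩ : ∃ q, q = Real.exp (-Real.exp (-(4 * (g : ℝ)))) := ⟨_, rfl⟩
  have h1 : ∀ i, ((hits p κ T i).card : ℝ) ≤ (k : ℝ) ^ t * (if i ∈ Iᶜ then q else 1) := by
    intro i
    by_cases hi : i ∈ I
    · rw [if_neg (fun h => (mem_compl.1 h) hi), mul_one]
      exact_mod_cast card_hits_all p κ T i
    · rw [if_pos (mem_compl.2 hi), hq]
      refine card_hits_good hk p κ T hT i fun j => ?_
      by_contra hcon
      rw [not_le] at hcon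
      exact hi (by rw [hI]; exact mem_filter.2 ⟨mem_univ _, j, hcon⟩)
  push_cast
  refine (prod_le_prod (fun i _ => Nat.cast_nonneg _) fun i _ => h1 i).trans ?_
  rw [prod_mul_distrib, prod_const, card_univ, Fintype.card_fin, prod_ite, prod_const_one, mul_one,
    prod_const]
  refine mul_le_mul_of_nonneg_left ?_ (by positivity)
  rw [hq, ← Real.exp_nat_mul]
  refine Real.exp_le_exp.2 ?_
  have h2 : univ.filter (fun i => i ∈ Iᶜ) = Iᶜ := by
    ext i
    simp
  rw [h2, card_compl, Fintype.card_fin, Nat.cast_sub (by omega)]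
  have h3 : (2 * I.card : ℝ) ≤ m := by exact_mod_cast hIc
  have h4 := Real.exp_pos (-(4 * (g : ℝ)))
  nlinarith

/-- The patterns: the variables which are true, and the variable which satisfies each clause. -/
abbrev Ph (m n k : ℕ) : Type := (Fin k → Fin n) × (Fin m → Fin k)

/-- The formula of a pattern: one variable for every clause. -/
def frm (u : Ph m n k) : Fin m × Fin n → Bool := fun e => decide (u.1 (u.2 e.1) = e.2)

theorem card_ph : Fintype.card (Ph m n k) = n ^ k * k ^ m := by
  rw [Fintype.card_prod, Fintype.card_fun, Fintype.card_fun, Fintype.card_fin, Fintype.card_fin,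
    Fintype.card_fin]

open Classical in
/-- The light tuples whose rows all use a position of `T`. -/
theorem card_two {g : ℕ} (hg : 1 ≤ g) (hk : 1 ≤ k) (p : Fin m × Fin n → Fin t)
    (T : Finset (Fin t × Fin k)) (hT : T.card ≤ 2 * g * k) :
    ((univ.filter (fun b : Fin t → Ph m n k => (∀ j, Light (32 * g) p (b j).1) ∧
      ∀ i, ∃ j, (b j).2 i ∈ use p (fun j => (b j).1) T i j)).card : ℝ) ≤
      (Fintype.card (Ph m n k) : ℝ) ^ t * Real.exp (-(Real.exp (-(4 * g)) / 2 * m)) := by
  obtain ⟨Q, hQ⟩ : ∃ Q, Q = univ.filter (fun b : Fin t → Ph m n k =>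
      (∀ j, Light (32 * g) p (b j).1) ∧
      ∀ i, ∃ j, (b j).2 i ∈ use p (fun j => (b j).1) T i j) := ⟨_, rfl⟩
  rw [← hQ]
  obtain ⟨X, hX⟩ : ∃ X : ℝ, X = ((k : ℝ) ^ t) ^ m * Real.exp (-(Real.exp (-(4 * g)) / 2 * m)) :=
    ⟨_, rfl⟩
  have h1 : Q.card = ∑ κ : Fin t → Fin k → Fin n,
      (Q.filter (fun b => (fun j => (b j).1) = κ)).card :=
    card_eq_sum_card_fiberwise (f := fun (b : Fin t → Ph m n k) (j : Fin t) => (b j).1)
      (fun _ _ => mem_univ _)
  have h2 : ∀ κ : Fin t → Fin k → Fin n,
      ((Q.filter (fun b => (fun j => (b j).1) = κ)).card : ℝ) ≤ X := by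
    intro κ
    by_cases hκ : ∀ j, Light (32 * g) p (κ j)
    · refine le_trans ?_ ((prod_hits hg hk p κ hκ T hT).trans (le_of_eq hX.symm))
      rw [← Fintype.card_piFinset]
      have h3 : (Q.filter (fun b => (fun j => (b j).1) = κ)).card ≤
          (Fintype.piFinset (fun i => hits p κ T i)).card := by
        refine card_le_card_of_injOn (fun b i j => (b j).2 i) (fun b hb => ?_)
          (fun b hb b' hb' h => ?_)
        · rw [mem_coe, mem_filter, hQ, mem_filter] at hb
          obtain ⟨⟨-, -, hb1⟩, hb2⟩ := hb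
          rw [mem_coe, Fintype.mem_piFinset]
          intro i
          unfold hits
          rw [mem_filter]
          refine ⟨mem_univ _, ?_⟩
          obtain ⟨j, hj⟩ := hb1 i
          rw [hb2] at hj
          exact ⟨j, hj⟩
        · rw [mem_coe, mem_filter] at hb hb'
          funext j
          have h4 : (b j).1 = (b' j).1 := (congrFun hb.2 j).trans (congrFun hb'.2 j).symm
          exact Prod.ext h4 (funext fun i => congrFun (congrFun h i) j)
      exact_mod_cast h3
    · have h3 : Q.filter (fun b => (fun j => (b j).1) = κ) = ∅ := by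
        rw [filter_eq_empty_iff]
        intro b hb hbκ
        rw [hQ, mem_filter] at hb
        refine hκ fun j => ?_
        have h4 := hb.2.1 j
        rw [← hbκ]
        exact h4
      rw [h3, card_empty, Nat.cast_zero, hX]
      positivity
  rw [h1]
  push_cast
  refine (sum_le_sum fun κ _ => h2 κ).trans (le_of_eq ?_)
  rw [sum_const, card_univ, Fintype.card_fun, Fintype.card_fun, Fintype.card_fin,
    Fintype.card_fin, Fintype.card_fin, nsmul_eq_mul, card_ph, hX]
  push_cast
  rw [mul_pow, ← pow_mul (k : ℝ) t m, ← pow_mul (k : ℝ) m t, mul_comm t m]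
  ring

open Classical in
/-- The tuples with many variables in `S`. -/
theorem card_one (S : Finset (Fin n)) (T : Finset (Fin t × Fin k)) :
    (univ.filter (fun b : Fin t → Ph m n k => ∀ s ∈ T, (b s.1).1 s.2 ∈ S)).card *
      n ^ T.card ≤ S.card ^ T.card * Fintype.card (Ph m n k) ^ t := by
  have h1 : univ.filter (fun b : Fin t → Ph m n k => ∀ s ∈ T, (b s.1).1 s.2 ∈ S) ⊆
      Fintype.piFinset (fun j => (Fintype.piFinset (fun a =>
        if (j, a) ∈ T then S else univ)) ×ˢ (univ : Finset (Fin m → Fin k))) := by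
    intro b hb
    rw [Fintype.mem_piFinset]
    intro j
    rw [mem_product, Fintype.mem_piFinset]
    refine ⟨fun a => ?_, mem_univ _⟩
    by_cases ha : (j, a) ∈ T
    · rw [if_pos ha]
      exact (mem_filter.1 hb).2 (j, a) ha
    · rw [if_neg ha]
      exact mem_univ _
  refine (Nat.mul_le_mul_right _ (card_le_card h1)).trans (le_of_eq ?_)
  rw [Fintype.card_piFinset, ← prod_ite_pow T n, ← prod_ite_pow T S.card,
    Fintype.prod_prod_type, Fintype.prod_prod_type, ← prod_mul_distrib]
  have h2 : ∀ j : Fin t, ((Fintype.piFinset (fun a : Fin k =>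
        if (j, a) ∈ T then S else univ)) ×ˢ (univ : Finset (Fin m → Fin k))).card *
      ∏ a, (if (j, a) ∈ T then n else 1) =
        (∏ a, (if (j, a) ∈ T then S.card else 1)) * Fintype.card (Ph m n k) := by
    intro j
    rw [card_product, Fintype.card_piFinset, card_univ, mul_right_comm, ← prod_mul_distrib,
      Fintype.card_prod, ← mul_assoc]
    congr 1
    have h3 : ∀ a : Fin k, (if (j, a) ∈ T then S else univ).card *
        (if (j, a) ∈ T then n else 1) = (if (j, a) ∈ T then S.card else 1) * n := by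
      intro a
      split_ifs <;> simp
    rw [prod_congr rfl fun a _ => h3 a, prod_mul_distrib, prod_const, card_univ,
      Fintype.card_fin, Fintype.card_fun, Fintype.card_fin, Fintype.card_fin]
  rw [prod_congr rfl fun j _ => h2 j, prod_mul_distrib, prod_const, card_univ, Fintype.card_fin]

end Pool.Agent.TH700.PH
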